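import Pool.Agent.NUC37.H1

/-!
# A `C¹` potential on the window, as a Fourier series on the circle

`cutS` = `C¹` step, `chi T` = cutoff equal to 1 on `[-T, T]` and to 0 outside `[-T-1, T+1]`.
`repr`: every `C¹` function `E` equals `F0 + Aser c` on the window with energy
`≤ 6 ∫ (E² + E'²)`.
-/

set_option autoImplicit false

open MeasureTheory Set Filter Topology NUWC NUC62 Pool.Agent.Szego62
open scoped Real

namespace NUC37

noncomputable section

/-- density of the step -/
def dS (v : ℝ) : ℝ := 6 * max (v * (1 - v)) 0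

/-- the step -/
def cutS (u : ℝ) : ℝ := ∫ v in (0 : ℝ)..u, dS v

theorem dS_cont : Continuous dS := by unfold dS; fun_prop

theorem dS_nonneg (v : ℝ) : 0 ≤ dS v := by unfold dS; positivity

theorem dS_le (v : ℝ) : dS v ≤ 3 / 2 := by
  unfold dS
  have : max (v * (1 - v)) 0 ≤ 1 / 4 := max_le (by nlinarith [sq_nonneg (v - 1 / 2)]) (by norm_num)
  linarith

theorem dS_out {v : ℝ} (h : v ≤ 0 ∨ 1 ≤ v) : dS v = 0 := by
  unfold dS
  rw [max_eq_right, mul_zero]
  rcases h with h | h <;> nlinarith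

theorem cutS_deriv (u : ℝ) : HasDerivAt cutS (dS u) u :=
  intervalIntegral.integral_hasDerivAt_right (dS_cont.intervalIntegrable _ _)
    (dS_cont.stronglyMeasurableAtFilter _ _) dS_cont.continuousAt

theorem cutS_le0 {u : ℝ} (h : u ≤ 0) : cutS u = 0 := by
  unfold cutS
  rw [intervalIntegral.integral_symm, neg_eq_zero]
  have : ∫ v in u..0, dS v = ∫ v in u..0, (0 : ℝ) := by
    refine intervalIntegral.integral_congr fun v hv => ?_
    rw [uIcc_of_le h] at hv
    exact dS_out (Or.inl hv.2)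
  rw [this]
  simp

theorem cutS_one : cutS 1 = 1 := by
  unfold cutS
  have h1 : ∫ v in (0 : ℝ)..1, dS v = ∫ v in (0 : ℝ)..1, (6 * v - 6 * v ^ 2) := by
    refine intervalIntegral.integral_congr fun v hv => ?_
    rw [uIcc_of_le zero_le_one] at hv
    simp only [dS]
    rw [max_eq_left (mul_nonneg hv.1 (by linarith [hv.2]))]
    ring
  have h2 : Continuous fun v : ℝ => 6 * v := by fun_prop
  have h3 : Continuous fun v : ℝ => 6 * v ^ 2 := by fun_prop
  rw [h1, intervalIntegral.integral_sub (h2.intervalIntegrable _ _) (h3.intervalIntegrable _ _),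
    intervalIntegral.integral_const_mul (6 : ℝ) (fun v => v),
    intervalIntegral.integral_const_mul (6 : ℝ) (fun v => v ^ 2), integral_id, integral_pow]
  norm_num

theorem cutS_ge1 {u : ℝ} (h : 1 ≤ u) : cutS u = 1 := by
  have h0 : cutS u = cutS 1 + ∫ v in (1 : ℝ)..u, dS v := by
    unfold cutS
    rw [intervalIntegral.integral_add_adjacent_intervals] <;>
      exact dS_cont.intervalIntegrable _ _
  have h1 : ∫ v in (1 : ℝ)..u, dS v = ∫ v in (1 : ℝ)..u, (0 : ℝ) := by
    refine intervalIntegral.integral_congr fun v hv => ?_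
    rw [uIcc_of_le h] at hv
    exact dS_out (Or.inr hv.1)
  rw [h0, h1, cutS_one]
  simp

theorem cutS_mono : Monotone cutS :=
  monotone_of_hasDerivAt_nonneg cutS_deriv dS_nonneg

theorem cutS_nonneg (u : ℝ) : 0 ≤ cutS u := by
  rcases le_total u 0 with h | h
  · rw [cutS_le0 h]
  · have := cutS_mono h
    rwa [cutS_le0 le_rfl] at this

theorem cutS_le (u : ℝ) : cutS u ≤ 1 := by
  rcases le_total u 1 with h | h
  · have := cutS_mono h
    rwa [cutS_one] at this
  · rw [cutS_ge1 h]

/-- cutoff -/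
def chi (T t : ℝ) : ℝ := cutS (T + 1 - t) * cutS (T + 1 + t)

/-- its derivative -/
def chi' (T t : ℝ) : ℝ := -dS (T + 1 - t) * cutS (T + 1 + t) + cutS (T + 1 - t) * dS (T + 1 + t)

theorem chi_deriv (T t : ℝ) : HasDerivAt (chi T) (chi' T t) t := by
  have h1 : HasDerivAt (fun t => cutS (T + 1 - t)) (-dS (T + 1 - t)) t := by
    have := (cutS_deriv (T + 1 - t)).comp t ((hasDerivAt_id t).const_sub (T + 1))
    refine this.congr_deriv ?_
    ring
  have h2 : HasDerivAt (fun t => cutS (T + 1 + t)) (dS (T + 1 + t)) t := by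
    have := (cutS_deriv (T + 1 + t)).comp t ((hasDerivAt_id t).const_add (T + 1))
    refine this.congr_deriv ?_
    ring
  exact h1.mul h2

theorem chi_in {T t : ℝ} (h : |t| ≤ T) : chi T t = 1 := by
  have := abs_le.1 h
  unfold chi
  rw [cutS_ge1 (by linarith), cutS_ge1 (by linarith), one_mul]

theorem chi_out {T t : ℝ} (h : T + 1 ≤ |t|) : chi T t = 0 := by
  unfold chi
  rcases le_abs.1 h with h | h
  · rw [cutS_le0 (by linarith), zero_mul]
  · rw [cutS_le0 (u := T + 1 + t) (by linarith), mul_zero]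

theorem chi_abs (T t : ℝ) : |chi T t| ≤ 1 := by
  unfold chi
  have a := cutS_nonneg (T + 1 - t)
  have b := cutS_nonneg (T + 1 + t)
  have c := cutS_le (T + 1 - t)
  have d := cutS_le (T + 1 + t)
  rw [abs_of_nonneg (mul_nonneg a b)]
  nlinarith

theorem chi'_abs (T t : ℝ) : |chi' T t| ≤ 3 := by
  unfold chi'
  have a := cutS_nonneg (T + 1 - t)
  have b := cutS_nonneg (T + 1 + t)
  have c := cutS_le (T + 1 - t)
  have d := cutS_le (T + 1 + t)
  have e := dS_nonneg (T + 1 - t)
  have f := dS_nonneg (T + 1 + t)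
  have g := dS_le (T + 1 - t)
  have h := dS_le (T + 1 + t)
  rw [abs_le]
  constructor <;> nlinarith

theorem cutS_cont : Continuous cutS :=
  continuous_iff_continuousAt.2 fun u => (cutS_deriv u).continuousAt

theorem chi_cont (T : ℝ) : Continuous (chi T) :=
  continuous_iff_continuousAt.2 fun u => (chi_deriv T u).continuousAt

theorem chi'_cont (T : ℝ) : Continuous (chi' T) := by
  unfold chi'
  have h1 := cutS_cont
  have h2 := dS_cont
  fun_prop

/-- periodic extension of a function with equal end values: it has the Fourier series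
`F0 + Aser c` on the circle. -/
theorem ser_C1P {L : ℝ} (hL : 0 < L) {f f' : ℝ → ℝ} (h : C1P L f f') {t : ℝ}
    (ht : t ∈ Icc (-(L / 2)) (L / 2)) :
    f t = (fc L f 0).re + Aser (fun p => fc L f (p + 1)) (2 * π * t / L) := by
  have : Fact (0 < L) := ⟨hL⟩
  set g0 : AddCircle L → ℝ := AddCircle.liftIco L (-(L / 2)) f with hg0
  have hgc : Continuous g0 := by
    refine AddCircle.liftIco_continuous ?_ ?_
    · rw [h.per]
      congr 1
      ring
    · rw [show -(L / 2) + L = L / 2 by ring]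
      exact h.cont
  set g : ℝ → ℝ := fun x => g0 (x : AddCircle L) with hg
  have hgcont : Continuous g := hgc.comp (AddCircle.continuous_mk' L)
  have hper : Function.Periodic g L := fun x => by
    rw [hg]
    simp only [AddCircle.coe_add_period]
  have hgf : ∀ x ∈ Ico (-(L / 2)) (L / 2), g x = f x := by
    intro x hx
    rw [hg]
    simp only [hg0]
    exact AddCircle.liftIco_coe_apply (by rwa [show -(L / 2) + L = L / 2 by ring])
  have hge : ∀ x ∈ Icc (-(L / 2)) (L / 2), g x = f x := by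
    intro x hx
    rcases hx.2.eq_or_lt with e | e
    · have h1 := hper (-(L / 2))
      rw [show -(L / 2) + L = L / 2 by ring] at h1
      rw [e, h1, hgf _ ⟨le_rfl, by linarith⟩, h.per]
    · exact hgf x ⟨hx.1, e⟩
  have hfc : ∀ k, fc L g k = fc L f k := by
    intro k
    unfold fc
    congr 1
    refine intervalIntegral.integral_congr fun x hx => ?_
    rw [uIcc_of_le (hab hL).le] at hx
    simp only [hge x hx]
  have h1 := ser_of_coef hL hgcont hper (by
    simp_rw [hfc]
    exact summable_fc hL h) t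
  simp_rw [hfc] at h1
  rw [← h1, hge t ht]

/-- the cut function -/
theorem cut_C1P {L T : ℝ} (hL : 0 < L) (hT : 2 * T + 2 ≤ L) {E E' : ℝ → ℝ}
    (hE : ∀ x ∈ Icc (-(L / 2)) (L / 2), HasDerivAt E (E' x) x)
    (hE' : ContinuousOn E' (Icc (-(L / 2)) (L / 2))) :
    C1P L (fun x => chi T x * E x) (fun x => chi' T x * E x + chi T x * E' x) where
  cont := (chi_cont T).continuousOn.mul fun x hx => (hE x hx).continuousAt.continuousWithinAt
  deriv x hx := (chi_deriv T x).mul (hE x (Ioo_subset_Icc_self hx))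
  cont' := ((chi'_cont T).continuousOn.mul fun x hx =>
    (hE x hx).continuousAt.continuousWithinAt).add ((chi_cont T).continuousOn.mul hE')
  per := by
    rw [chi_out (t := -(L / 2)) (by rw [abs_neg, abs_of_pos (by linarith)]; linarith),
      chi_out (t := L / 2) (by rw [abs_of_pos (by linarith)]; linarith), zero_mul, zero_mul]

/-- **Representation of a `C¹` potential on the window.** -/
theorem repr {G L T : ℝ} (hG : 9 ≤ G) (hL : 0 < L) (hT : 2 * T + 2 ≤ L) {E E' : ℝ → ℝ}
    (hE : ∀ x ∈ Icc (-(L / 2)) (L / 2), HasDerivAt E (E' x) x)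
    (hE' : ContinuousOn E' (Icc (-(L / 2)) (L / 2))) :
    ∃ (F0 : ℝ) (c : ℕ → ℂ), (Summable fun p => ‖c p‖) ∧
      (∀ t, |t| ≤ T → E t = F0 + Aser c (2 * π * t / L)) ∧
      (Summable fun p => L * ‖c p‖ ^ 2 / uh G (kp L p)) ∧
      L * F0 ^ 2 ≤ ∫ x in (-(L / 2))..(L / 2), E x ^ 2 ∧
      ∑' p, L * ‖c p‖ ^ 2 / uh G (kp L p) ≤
        6 * ∫ x in (-(L / 2))..(L / 2), (E x ^ 2 + E' x ^ 2) := by
  have hc := cut_C1P hL hT hE hE'
  set h : ℝ → ℝ := fun x => chi T x * E x with hh
  set h' : ℝ → ℝ := fun x => chi' T x * E x + chi T x * E' x with hh'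
  obtain ⟨s5, b5⟩ := energy_C1 hG hL hc
  obtain ⟨s1, e1⟩ := parseval_half hL hc.cont
  have hEc : ContinuousOn E (Icc (-(L / 2)) (L / 2)) := fun x hx =>
    (hE x hx).continuousAt.continuousWithinAt
  have hle := (hab hL).le
  have ii : ∀ {φ : ℝ → ℝ}, ContinuousOn φ (Icc (-(L / 2)) (L / 2)) →
      IntervalIntegrable φ volume (-(L / 2)) (L / 2) := fun hφ =>
    ContinuousOn.intervalIntegrable (by rwa [uIcc_of_le hle])
  have i1 : IntervalIntegrable (fun x => E x ^ 2) volume (-(L / 2)) (L / 2) := ii (hEc.pow 2)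
  have i2 : IntervalIntegrable (fun x => E' x ^ 2) volume (-(L / 2)) (L / 2) := ii (hE'.pow 2)
  have i3 : IntervalIntegrable (fun x => h x ^ 2) volume (-(L / 2)) (L / 2) := ii (hc.cont.pow 2)
  have i4 : IntervalIntegrable (fun x => h' x ^ 2) volume (-(L / 2)) (L / 2) :=
    ii (hc.cont'.pow 2)
  have b1 : ∫ x in (-(L / 2))..(L / 2), h x ^ 2 ≤ ∫ x in (-(L / 2))..(L / 2), E x ^ 2 := by
    refine intervalIntegral.integral_mono_on hle i3 i1 fun x _ => ?_
    simp only [hh]
    rw [mul_pow]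
    have a1 := chi_abs T x
    have : chi T x ^ 2 ≤ 1 := by
      rw [← sq_abs]
      exact pow_le_one₀ (abs_nonneg _) a1
    nlinarith [sq_nonneg (E x)]
  have b2 : ∫ x in (-(L / 2))..(L / 2), h' x ^ 2 ≤
      18 * ∫ x in (-(L / 2))..(L / 2), (E x ^ 2 + E' x ^ 2) := by
    rw [← intervalIntegral.integral_const_mul]
    refine intervalIntegral.integral_mono_on hle i4 ((i1.add i2).const_mul 18) fun x _ => ?_
    simp only [hh']
    have a1 : chi T x ^ 2 ≤ 1 := by
      rw [← sq_abs]
      exact pow_le_one₀ (abs_nonneg _) (chi_abs T x)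
    have a2 : chi' T x ^ 2 ≤ 9 := by
      rw [← sq_abs]
      have := chi'_abs T x
      nlinarith [abs_nonneg (chi' T x)]
    have a3 : (chi' T x * E x + chi T x * E' x) ^ 2 ≤
        2 * (chi' T x ^ 2 * E x ^ 2) + 2 * (chi T x ^ 2 * E' x ^ 2) := by
      nlinarith [sq_nonneg (chi' T x * E x - chi T x * E' x)]
    have a4 : chi' T x ^ 2 * E x ^ 2 ≤ 9 * E x ^ 2 := by gcongr
    have a5 : chi T x ^ 2 * E' x ^ 2 ≤ 1 * E' x ^ 2 := by gcongr
    nlinarith [sq_nonneg (E x), sq_nonneg (E' x)]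
  set N := ∫ x in (-(L / 2))..(L / 2), (E x ^ 2 + E' x ^ 2) with hN
  have hEN : ∫ x in (-(L / 2))..(L / 2), E x ^ 2 ≤ N := by
    refine intervalIntegral.integral_mono_on hle i1 (i1.add i2) fun x _ => ?_
    nlinarith [sq_nonneg (E' x)]
  have hN0 : 0 ≤ N := intervalIntegral.integral_nonneg hle fun x _ => by positivity
  refine ⟨(fc L h 0).re, fun p => fc L h (p + 1), summable_fc hL hc, ?_, s5, ?_, ?_⟩
  · intro t ht
    have h1 := ser_C1P hL hc (t := t) (by
      have := abs_le.1 ht
      constructor <;> linarith)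
    rw [← h1, hh]
    simp only [chi_in ht, one_mul]
  · have h2 : ((fc L h 0).re) ^ 2 ≤ ‖fc L h 0‖ ^ 2 := by
      rw [← sq_abs]
      exact pow_le_pow_left₀ (abs_nonneg _) (Complex.abs_re_le_norm _) 2
    have h3 : 0 ≤ ∑' p : ℕ, L * ‖fc L h (p + 1)‖ ^ 2 := tsum_nonneg fun p => by positivity
    calc L * (fc L h 0).re ^ 2 ≤ L * ‖fc L h 0‖ ^ 2 := by gcongr
      _ ≤ ∫ x in (-(L / 2))..(L / 2), h x ^ 2 := by rw [← e1]; linarith
      _ ≤ _ := b1
  · refine b5.trans ?_
    have h1 : √((∫ x in (-(L / 2))..(L / 2), h x ^ 2) * ∫ x in (-(L / 2))..(L / 2), h' x ^ 2) ≤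
        5 * N := by
      rw [Real.sqrt_le_left (by positivity)]
      have h5 : 0 ≤ ∫ x in (-(L / 2))..(L / 2), h x ^ 2 :=
        intervalIntegral.integral_nonneg hle fun x _ => by positivity
      calc (∫ x in (-(L / 2))..(L / 2), h x ^ 2) * ∫ x in (-(L / 2))..(L / 2), h' x ^ 2 ≤
          N * (18 * N) := by
            apply mul_le_mul (b1.trans hEN) b2 _ hN0
            exact intervalIntegral.integral_nonneg hle fun x _ => by positivity
        _ ≤ _ := by nlinarith
    linarith [b1.trans hEN]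

end

end NUC37
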