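import Pool.Agent.NUWC.Four
import Pool.Agent.NUC62.Bound

/-!
# Energy of a smooth function on the circle

`fc` (helper36) = Fourier coefficient on `[-L/2, L/2]`.  Parseval, derivative, and the bound of
`∑ L ‖c‖² / uh` by `∫ f² + √(∫ f² ∫ f'²)`.
-/

set_option autoImplicit false

open MeasureTheory Set Filter Topology NUWC NUC62
open scoped Real

namespace NUC37

noncomputable section

/-- hypothesis: `f` is continuous on the closed interval, differentiable inside with a continuous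
derivative, and takes the same value at the two ends. -/
structure C1P (L : ℝ) (f f' : ℝ → ℝ) : Prop where
  cont : ContinuousOn f (Icc (-(L / 2)) (L / 2))
  deriv : ∀ x ∈ Ioo (-(L / 2)) (L / 2), HasDerivAt f (f' x) x
  cont' : ContinuousOn f' (Icc (-(L / 2)) (L / 2))
  per : f (-(L / 2)) = f (L / 2)

theorem hab {L : ℝ} (hL : 0 < L) : -(L / 2) < L / 2 := by linarith

theorem fc_eq_on {L : ℝ} (hL : 0 < L) (f : ℝ → ℝ) (k : ℤ) :
    fc L f k = fourierCoeffOn (hab hL) (fun x => (f x : ℂ)) k := by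
  rw [fourierCoeffOn_eq_integral]
  unfold fc
  rw [show L / 2 - -(L / 2) = L by ring, Complex.real_smul]
  congr 1
  refine intervalIntegral.integral_congr fun x _ => ?_
  simp only [smul_eq_mul]
  rw [fourier_coe_apply]
  congr 2
  have : (L : ℂ) ≠ 0 := by exact_mod_cast hL.ne'
  push_cast
  field_simp

theorem memLp_of_cont {L : ℝ} {f : ℝ → ℝ} (hf : ContinuousOn f (Icc (-(L / 2)) (L / 2))) :
    MemLp (fun x => (f x : ℂ)) 2 (volume.restrict (Ioc (-(L / 2)) (L / 2))) := by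
  obtain ⟨C, hC⟩ := isCompact_Icc.exists_bound_of_continuousOn hf
  have hm : AEStronglyMeasurable f (volume.restrict (Ioc (-(L / 2)) (L / 2))) :=
    (hf.mono Ioc_subset_Icc_self).aestronglyMeasurable measurableSet_Ioc
  refine MemLp.of_bound (Complex.continuous_ofReal.comp_aestronglyMeasurable hm) C ?_
  filter_upwards [ae_restrict_mem measurableSet_Ioc] with x hx
  rw [Complex.norm_real]
  exact hC x (Ioc_subset_Icc_self hx)

/-- Parseval -/
theorem parseval {L : ℝ} (hL : 0 < L) {f : ℝ → ℝ}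
    (hf : ContinuousOn f (Icc (-(L / 2)) (L / 2))) :
    HasSum (fun k : ℤ => L * ‖fc L f k‖ ^ 2) (∫ x in (-(L / 2))..(L / 2), f x ^ 2) := by
  have h := (hasSum_sq_fourierCoeffOn (hab hL) (memLp_of_cont hf)).mul_left L
  simp_rw [← fc_eq_on hL] at h
  have e : L * ((L / 2 - -(L / 2))⁻¹ • ∫ x in (-(L / 2))..(L / 2), ‖((f x : ℝ) : ℂ)‖ ^ 2) =
      ∫ x in (-(L / 2))..(L / 2), f x ^ 2 := by
    rw [show L / 2 - -(L / 2) = L by ring, smul_eq_mul, ← mul_assoc, mul_inv_cancel₀ hL.ne',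
      one_mul]
    refine intervalIntegral.integral_congr fun x _ => ?_
    simp only [Complex.norm_real, Real.norm_eq_abs, sq_abs]
  rw [e] at h
  exact h

theorem parseval_half {L : ℝ} (hL : 0 < L) {f : ℝ → ℝ}
    (hf : ContinuousOn f (Icc (-(L / 2)) (L / 2))) :
    (Summable fun p : ℕ => L * ‖fc L f (p + 1)‖ ^ 2) ∧
    L * ‖fc L f 0‖ ^ 2 + 2 * ∑' p : ℕ, L * ‖fc L f (p + 1)‖ ^ 2 =
      ∫ x in (-(L / 2))..(L / 2), f x ^ 2 := by
  have h := parseval hL hf
  have hneg : ∀ k : ℤ, ‖fc L f (-k)‖ = ‖fc L f k‖ := fun k => by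
    rw [fc_neg, Complex.norm_conj]
  set g : ℤ → ℝ := fun k => L * ‖fc L f k‖ ^ 2 with hg
  have hgn : ∀ k, g (-k) = g k := fun k => by rw [hg]; simp only [hneg]
  have hs : Summable g := h.summable
  have s1 : Summable fun n : ℕ => g (n : ℤ) :=
    hs.comp_injective (i := fun n : ℕ => (n : ℤ)) Nat.cast_injective
  have s3 : Summable fun p : ℕ => g ((p : ℤ) + 1) :=
    hs.comp_injective (i := fun n : ℕ => (n : ℤ) + 1) fun a b hab => by
      simp only [add_left_inj, Nat.cast_inj] at hab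
      exact hab
  have s2 : Summable fun n : ℕ => g (-((n : ℤ) + 1)) := s3.congr fun n => (hgn _).symm
  refine ⟨s3, ?_⟩
  have h2 : ∑' k, g k = ∫ x in (-(L / 2))..(L / 2), f x ^ 2 := h.tsum_eq
  rw [tsum_of_nat_of_neg_add_one s1 s2, s1.tsum_eq_zero_add] at h2
  simp_rw [hgn] at h2
  push_cast at h2
  change g 0 + 2 * ∑' p : ℕ, g ((p : ℤ) + 1) = _
  rw [← h2]
  ring

/-- derivative -/
theorem fc_deriv {L : ℝ} (hL : 0 < L) {f f' : ℝ → ℝ} (h : C1P L f f') (p : ℕ) :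
    ‖fc L f' (p + 1)‖ = kp L p * ‖fc L f (p + 1)‖ := by
  have hk : ((p : ℤ) + 1) ≠ 0 := by omega
  have hc : IntervalIntegrable (fun x => (f' x : ℂ)) volume (-(L / 2)) (L / 2) := by
    refine ContinuousOn.intervalIntegrable ?_
    rw [uIcc_of_le (hab hL).le]
    exact Complex.continuous_ofReal.comp_continuousOn h.cont'
  have h1 := fourierCoeffOn_of_hasDerivAt_Ioo (hab hL) (f := fun x => (f x : ℂ))
    (f' := fun x => (f' x : ℂ)) hk (by
      rw [uIcc_of_le (hab hL).le]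
      exact Complex.continuous_ofReal.comp_continuousOn h.cont) (fun x hx => by
      rw [min_eq_left (hab hL).le, max_eq_right (hab hL).le] at hx
      exact (h.deriv x hx).ofReal_comp) hc
  rw [← fc_eq_on hL, ← fc_eq_on hL, h.per, sub_self, mul_zero, zero_sub] at h1
  rw [h1, norm_mul, norm_neg, norm_mul, norm_div, norm_one]
  have e1 : ‖(-2 * π * Complex.I * (((p : ℤ) + 1 : ℤ) : ℂ) : ℂ)‖ = 2 * π * (p + 1) := by
    rw [norm_mul, norm_mul, norm_mul, Complex.norm_I, mul_one, norm_neg]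
    have : ‖(((p : ℤ) + 1 : ℤ) : ℂ)‖ = (p : ℝ) + 1 := by
      rw [show (((p : ℤ) + 1 : ℤ) : ℂ) = (((p : ℝ) + 1 : ℝ) : ℂ) by push_cast; ring,
        Complex.norm_real, Real.norm_eq_abs, abs_of_nonneg (by positivity)]
    rw [this, Complex.norm_real, Real.norm_eq_abs, abs_of_pos Real.pi_pos]
    norm_num
  rw [e1]
  have e2 : ‖(((L / 2 : ℝ) : ℂ) - ((-(L / 2) : ℝ) : ℂ))‖ = L := by
    rw [← Complex.ofReal_sub, Complex.norm_real, Real.norm_eq_abs, show L / 2 - -(L / 2) = L by ring,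
      abs_of_pos hL]
  rw [e2]
  unfold kp
  have hpi := Real.pi_pos
  have : (0 : ℝ) < p + 1 := by positivity
  field_simp

/-- **Energy of a `C¹` function.** -/
theorem energy_C1 {G L : ℝ} (hG : 9 ≤ G) (hL : 0 < L) {f f' : ℝ → ℝ} (h : C1P L f f') :
    (Summable fun p : ℕ => L * ‖fc L f (p + 1)‖ ^ 2 / uh G (kp L p)) ∧
    ∑' p : ℕ, L * ‖fc L f (p + 1)‖ ^ 2 / uh G (kp L p) ≤
      (∫ x in (-(L / 2))..(L / 2), f x ^ 2) +
        √((∫ x in (-(L / 2))..(L / 2), f x ^ 2) * ∫ x in (-(L / 2))..(L / 2), f' x ^ 2) := by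
  obtain ⟨s1, e1⟩ := parseval_half hL h.cont
  obtain ⟨s2, e2⟩ := parseval_half hL h.cont'
  set A := ∫ x in (-(L / 2))..(L / 2), f x ^ 2 with hA
  set B := ∫ x in (-(L / 2))..(L / 2), f' x ^ 2 with hB
  set a : ℕ → ℝ := fun p => ‖fc L f (p + 1)‖ with ha
  have ha0 : ∀ p, 0 ≤ a p := fun p => norm_nonneg _
  have hd : ∀ p : ℕ, L * ‖fc L f' (p + 1)‖ ^ 2 = L * (kp L p * a p) ^ 2 := fun p => by
    rw [fc_deriv hL h p]
  simp_rw [hd] at s2 e2
  have hA1 : 2 * ∑' p : ℕ, L * a p ^ 2 ≤ A := by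
    rw [← e1]
    have : 0 ≤ L * ‖fc L f 0‖ ^ 2 := by positivity
    linarith
  have hB1 : 2 * ∑' p : ℕ, L * (kp L p * a p) ^ 2 ≤ B := by
    rw [← e2]
    have : 0 ≤ L * ‖fc L f' 0‖ ^ 2 := by positivity
    linarith
  have hA0 : 0 ≤ ∑' p : ℕ, L * a p ^ 2 := tsum_nonneg fun p => by positivity
  have hB0 : 0 ≤ ∑' p : ℕ, L * (kp L p * a p) ^ 2 := tsum_nonneg fun p => by positivity
  -- each term
  have hu : ∀ p, 1 / (2 * (1 + kp L p)) ≤ uh G (kp L p) := by
    intro p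
    have hk := kp_pos hL p
    have h1 := uh_ge hG hk
    have h2 := ratio_half hG hk
    have h3 := Vh_ge hk
    have h4 := Vh_pos hk
    have h5 : (1 / 2 : ℝ) * (1 / (1 + kp L p)) ≤ (1 - eG G / (1 + kp L p)) * Vh (kp L p) := by
      apply mul_le_mul (by linarith) h3 (by positivity) (by linarith)
    have h6 : 1 / (2 * (1 + kp L p)) = (1 / 2 : ℝ) * (1 / (1 + kp L p)) := by
      have : 0 < 1 + kp L p := by linarith
      field_simp
    linarith
  have ht : ∀ p : ℕ, L * a p ^ 2 / uh G (kp L p) ≤ 2 * (L * a p ^ 2) + 2 * (L * kp L p * a p ^ 2) := by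
    intro p
    have hk := kp_pos hL p
    have h1 := hu p
    have h2 : 0 < 1 / (2 * (1 + kp L p)) := by positivity
    calc L * a p ^ 2 / uh G (kp L p) ≤ L * a p ^ 2 / (1 / (2 * (1 + kp L p))) := by
          gcongr
      _ = _ := by
          field_simp
  -- Cauchy-Schwarz
  have hm1 : ∀ p : ℕ, L * kp L p * a p ^ 2 ≤ L * a p ^ 2 + L * (kp L p * a p) ^ 2 := by
    intro p
    have hk := kp_pos hL p
    have : kp L p ≤ 1 + kp L p ^ 2 := by nlinarith [sq_nonneg (kp L p - 1)]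
    calc L * kp L p * a p ^ 2 ≤ L * (1 + kp L p ^ 2) * a p ^ 2 := by gcongr
      _ = _ := by ring
  have s3 : Summable fun p : ℕ => L * kp L p * a p ^ 2 :=
    Summable.of_nonneg_of_le (fun p => by have := kp_pos hL p; positivity) hm1 (s1.add s2)
  have hcs : ∑' p : ℕ, L * kp L p * a p ^ 2 ≤
      √((∑' p : ℕ, L * a p ^ 2) * ∑' p : ℕ, L * (kp L p * a p) ^ 2) := by
    refine s3.tsum_le_of_sum_le fun s => ?_
    apply Real.le_sqrt_of_sq_le
    have h1 := Finset.sum_mul_sq_le_sq_mul_sq s (fun p => √L * a p) fun p => √L * (kp L p * a p)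
    have e3 : ∑ p ∈ s, √L * a p * (√L * (kp L p * a p)) = ∑ p ∈ s, L * kp L p * a p ^ 2 := by
      refine Finset.sum_congr rfl fun p _ => ?_
      have : √L * √L = L := Real.mul_self_sqrt hL.le
      calc √L * a p * (√L * (kp L p * a p)) = (√L * √L) * kp L p * a p ^ 2 := by ring
        _ = _ := by rw [this]
    have e4 : ∑ p ∈ s, (√L * a p) ^ 2 = ∑ p ∈ s, L * a p ^ 2 := by
      refine Finset.sum_congr rfl fun p _ => ?_
      rw [mul_pow, Real.sq_sqrt hL.le]
    have e5 : ∑ p ∈ s, (√L * (kp L p * a p)) ^ 2 = ∑ p ∈ s, L * (kp L p * a p) ^ 2 := by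
      refine Finset.sum_congr rfl fun p _ => ?_
      rw [mul_pow, Real.sq_sqrt hL.le]
    rw [e3, e4, e5] at h1
    refine h1.trans ?_
    have h2 : ∑ p ∈ s, L * a p ^ 2 ≤ ∑' p : ℕ, L * a p ^ 2 :=
      s1.sum_le_tsum s fun p _ => by positivity
    have h3 : ∑ p ∈ s, L * (kp L p * a p) ^ 2 ≤ ∑' p : ℕ, L * (kp L p * a p) ^ 2 :=
      s2.sum_le_tsum s fun p _ => by positivity
    exact mul_le_mul h2 h3 (Finset.sum_nonneg fun p _ => by positivity) hA0
  have hu0 : ∀ p : ℕ, 0 ≤ L * a p ^ 2 / uh G (kp L p) := fun p => by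
    have := uh_pos hG (kp_pos hL p)
    positivity
  have s4 : Summable fun p : ℕ => 2 * (L * a p ^ 2) + 2 * (L * kp L p * a p ^ 2) :=
    (s1.mul_left 2).add (s3.mul_left 2)
  have s5 : Summable fun p : ℕ => L * a p ^ 2 / uh G (kp L p) :=
    Summable.of_nonneg_of_le hu0 ht s4
  refine ⟨s5, ?_⟩
  calc ∑' p : ℕ, L * a p ^ 2 / uh G (kp L p) ≤
      ∑' p : ℕ, (2 * (L * a p ^ 2) + 2 * (L * kp L p * a p ^ 2)) := s5.tsum_le_tsum ht s4
    _ = 2 * ∑' p : ℕ, L * a p ^ 2 + 2 * ∑' p : ℕ, L * kp L p * a p ^ 2 := by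
        rw [(s1.mul_left 2).tsum_add (s3.mul_left 2), tsum_mul_left (a := (2:ℝ)),
          tsum_mul_left (a := (2:ℝ))]
    _ ≤ A + √(A * B) := by
        have h1 : √((∑' p : ℕ, L * a p ^ 2) * ∑' p : ℕ, L * (kp L p * a p) ^ 2) ≤
            √(A / 2 * (B / 2)) := by
          apply Real.sqrt_le_sqrt
          apply mul_le_mul (by linarith) (by linarith) hB0 (by linarith)
        have h2 : √(A / 2 * (B / 2)) = √(A * B) / 2 := by
          rw [show A / 2 * (B / 2) = A * B / 2 ^ 2 by ring, Real.sqrt_div' _ (by norm_num),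
            Real.sqrt_sq (by norm_num)]
        linarith

/-- summability of the coefficients -/
theorem summable_fc {L : ℝ} (hL : 0 < L) {f f' : ℝ → ℝ} (h : C1P L f f') :
    Summable fun p : ℕ => ‖fc L f (p + 1)‖ := by
  obtain ⟨s2, -⟩ := parseval_half hL h.cont'
  have h1 : Summable fun p : ℕ => 1 / ((p : ℝ) + 1) ^ 2 := by
    have := (summable_nat_add_iff 1).2 (Real.summable_one_div_nat_pow.2 one_lt_two)
    refine this.congr fun p => ?_
    push_cast
    ring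
  have s3 : Summable fun p : ℕ => ‖fc L f' (p + 1)‖ ^ 2 := by
    refine (s2.mul_left L⁻¹).congr fun p => ?_
    rw [← mul_assoc, inv_mul_cancel₀ hL.ne', one_mul]
  refine Summable.of_nonneg_of_le (fun p => norm_nonneg _) (fun p => ?_)
    ((s3.mul_left (1 / 2)).add (h1.mul_left (1 / 2 * (L / (2 * π)) ^ 2)))
  have hk := kp_pos hL p
  have e1 : ‖fc L f (p + 1)‖ = ‖fc L f' (p + 1)‖ * (1 / kp L p) := by
    rw [fc_deriv hL h p]
    field_simp
  have e2 : 1 / kp L p = L / (2 * π) * (1 / ((p : ℝ) + 1)) := by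
    unfold kp
    field_simp
  have h3 : 1 / 2 * (L / (2 * π)) ^ 2 * (1 / ((p : ℝ) + 1) ^ 2) = 1 / 2 * (1 / kp L p) ^ 2 := by
    rw [e2]
    have : (0 : ℝ) < p + 1 := by positivity
    field_simp
  rw [h3, e1]
  nlinarith [sq_nonneg (‖fc L f' (p + 1)‖ - 1 / kp L p)]

end

end NUC37
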