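import Pool.Agent.NUE.Inst
import Mathlib.Analysis.Fourier.Convolution
import Mathlib.Analysis.Fourier.Inversion

/-!
# Energies of even densities in Fourier space

* `CT f m`: `f` integrable, even, `∫ f cos (k .) = m k` for `k > 0`.
* `CT.conv`: convolution.  `CT.inv`: inversion.
* `energy_V`: `∫∫ f₁ (x - s) V (s - s') f₂ (s' - y) = (1/π) ∫ Uh m₁ m₂ cos (k (x - y))`.
* `energy_lg`: the same for the long range kernel `lgm`.
-/

set_option autoImplicit false

open MeasureTheory Set Filter Topology NUMF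
open scoped FourierTransform Real Convolution

namespace NUC37

noncomputable section

/-- even integrable function with its cosine transform -/
structure CT (f m : ℝ → ℝ) : Prop where
  int : Integrable f
  even : ∀ t, f (-t) = f t
  ft : ∀ k, 0 < k → ∫ t, f t * Real.cos (k * t) = m k

theorem cos_int {f : ℝ → ℝ} (hf : Integrable f) (k : ℝ) :
    Integrable fun t => f t * Real.cos (k * t) :=
  hf.mul_bdd (c := 1) (by fun_prop) (ae_of_all _ fun s => Real.abs_cos_le_one _)

theorem sin_int {f : ℝ → ℝ} (hf : Integrable f) (k : ℝ) :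
    Integrable fun t => f t * Real.sin (k * t) :=
  hf.mul_bdd (c := 1) (by fun_prop) (ae_of_all _ fun s => Real.abs_sin_le_one _)

theorem sin_zero {f : ℝ → ℝ} (he : ∀ t, f (-t) = f t) (k : ℝ) :
    ∫ t, f t * Real.sin (k * t) = 0 := by
  have h4 : ∫ s, f s * Real.sin (k * s) = ∫ s, -(f s * Real.sin (k * s)) := by
    rw [← integral_neg_eq_self]
    congr 1
    funext s
    rw [he, show k * -s = -(k * s) by ring, Real.sin_neg]
    ring
  rw [integral_neg] at h4
  linarith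

/-- complex Fourier transform of an even function -/
theorem fourier_even {f : ℝ → ℝ} (hi : Integrable f) (he : ∀ t, f (-t) = f t) (ξ : ℝ) :
    𝓕 (fun t : ℝ => ((f t : ℝ) : ℂ)) ξ = ((∫ t, f t * Real.cos (2 * π * ξ * t) : ℝ) : ℂ) := by
  rw [Real.fourier_real_eq_integral_exp_smul]
  have h2 : ∀ s : ℝ, Complex.exp (((-2 * π * s * ξ : ℝ) : ℂ) * Complex.I) • ((f s : ℝ) : ℂ) =
      ((f s * Real.cos (2 * π * ξ * s) : ℝ) : ℂ) +
        ((-(f s * Real.sin (2 * π * ξ * s)) : ℝ) : ℂ) * Complex.I := by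
    intro s
    rw [smul_eq_mul, Complex.exp_mul_I, ← Complex.ofReal_cos, ← Complex.ofReal_sin,
      show -2 * π * s * ξ = -(2 * π * ξ * s) by ring, Real.cos_neg, Real.sin_neg]
    push_cast
    ring
  have i1 := cos_int hi (2 * π * ξ)
  have i2 := sin_int hi (2 * π * ξ)
  have j1 : Integrable fun s : ℝ => ((f s * Real.cos (2 * π * ξ * s) : ℝ) : ℂ) := i1.ofReal
  have j2' : Integrable fun s : ℝ => ((-(f s * Real.sin (2 * π * ξ * s)) : ℝ) : ℂ) :=
    i2.neg.ofReal
  have j2 := j2'.mul_const Complex.I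
  rw [integral_congr_ae (ae_of_all _ h2), integral_add j1 j2, integral_mul_const,
    integral_complex_ofReal, integral_complex_ofReal, integral_neg, sin_zero he]
  simp

theorem CT.fourier {f m : ℝ → ℝ} (h : CT f m) {ξ : ℝ} (hξ : ξ ≠ 0) :
    𝓕 (fun t : ℝ => ((f t : ℝ) : ℂ)) ξ = ((m (2 * π * |ξ|) : ℝ) : ℂ) := by
  rw [fourier_even h.int h.even]
  congr 1
  have hpi := Real.pi_pos
  have h0 : 0 < 2 * π * |ξ| := by
    have := abs_pos.2 hξ
    positivity
  rw [← h.ft _ h0]
  congr 1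
  funext t
  congr 1
  rcases abs_cases ξ with ⟨e, _⟩ | ⟨e, _⟩
  · rw [e]
  · rw [e, show 2 * π * -ξ * t = -(2 * π * ξ * t) by ring, Real.cos_neg]

theorem integrable_abs {f : ℝ → ℝ} (h : IntegrableOn f (Ioi 0)) : Integrable fun x => f |x| := by
  have hf : IntegrableOn (fun x => f |x|) (Ioi 0) :=
    h.congr_fun (fun x hx => by rw [abs_of_pos hx]) measurableSet_Ioi
  have int_Iic : IntegrableOn (fun x ↦ f |x|) (Iic 0) := by
    rw [← Measure.map_neg_eq_self (volume : Measure ℝ)]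
    let m : MeasurableEmbedding fun x : ℝ => -x := (Homeomorph.neg ℝ).measurableEmbedding
    rw [m.integrableOn_map_iff]
    simp_rw [Function.comp_def, abs_neg, neg_preimage, neg_Iic, neg_zero]
    exact Iff.mpr integrableOn_Ici_iff_integrableOn_Ioi hf
  have := int_Iic.union hf
  rwa [Iic_union_Ioi, integrableOn_univ] at this

/-- **Inversion.** -/
theorem CT.inv {f m : ℝ → ℝ} (h : CT f m) (hm : IntegrableOn m (Ioi 0)) {t : ℝ}
    (hc : ContinuousAt f t) : f t = 1 / π * ∫ k in Ioi (0:ℝ), m k * Real.cos (k * t) := by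
  have hpi := Real.pi_pos
  have h2pi : (0:ℝ) < 2 * π := by positivity
  -- integrability of the Fourier transform
  have h1 : IntegrableOn (fun ξ : ℝ => m (2 * π * ξ)) (Ioi 0) :=
    (integrableOn_Ioi_comp_mul_left_iff m 0 h2pi).2 (by rwa [mul_zero])
  have hab : Integrable fun ξ : ℝ => m (2 * π * |ξ|) := integrable_abs (f := fun x => m (2 * π * x)) h1
  have hF : 𝓕 (fun t : ℝ => ((f t : ℝ) : ℂ)) =ᵐ[volume] fun ξ => ((m (2 * π * |ξ|) : ℝ) : ℂ) := by
    have : ∀ᵐ ξ : ℝ ∂volume, ξ ≠ 0 := by simp [ae_iff]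
    filter_upwards [this] with ξ hξ
    exact h.fourier hξ
  have hFi : Integrable (𝓕 (fun t : ℝ => ((f t : ℝ) : ℂ))) := hab.ofReal.congr hF.symm
  have h3 := h.int.ofReal.fourierInv_fourier_eq (f := fun t : ℝ => ((f t : ℝ) : ℂ)) hFi (v := t)
    (Complex.continuous_ofReal.continuousAt.comp hc)
  rw [Real.fourierInv_eq_fourier_neg] at h3
  have h5 : 𝓕 (𝓕 (fun t : ℝ => ((f t : ℝ) : ℂ))) (-t) =
      𝓕 (fun ξ : ℝ => ((m (2 * π * |ξ|) : ℝ) : ℂ)) (-t) := by
    rw [Real.fourier_real_eq_integral_exp_smul, Real.fourier_real_eq_integral_exp_smul]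
    refine integral_congr_ae ?_
    filter_upwards [hF] with v hv
    rw [hv]
  rw [h5, fourier_even hab (fun x => by rw [abs_neg])] at h3
  have h6 : (∫ x : ℝ, m (2 * π * |x|) * Real.cos (2 * π * -t * x)) = f t := by
    exact_mod_cast h3
  rw [← h6]
  have h7 : ∀ x : ℝ, m (2 * π * |x|) * Real.cos (2 * π * -t * x) =
      (fun y => m (2 * π * y) * Real.cos (2 * π * y * t)) |x| := by
    intro x
    simp only
    congr 1
    rcases abs_cases x with ⟨e, _⟩ | ⟨e, _⟩
    · rw [e, show 2 * π * -t * x = -(2 * π * x * t) by ring, Real.cos_neg]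
    · rw [e, show 2 * π * -t * x = 2 * π * -x * t by ring]
  simp_rw [h7]
  rw [integral_comp_abs (f := fun y => m (2 * π * y) * Real.cos (2 * π * y * t))]
  have h8 := integral_comp_mul_left_Ioi (fun k => m k * Real.cos (k * t)) 0 h2pi
  rw [mul_zero] at h8
  rw [h8, smul_eq_mul]
  generalize (∫ x in Ioi (0:ℝ), m x * Real.cos (x * t)) = J
  field_simp

/-! ### convolution -/

/-- convolution -/
def cv (f g : ℝ → ℝ) (x : ℝ) : ℝ := ∫ u, f (x - u) * g u

theorem cv_eq (f g : ℝ → ℝ) : cv f g = f ⋆[ContinuousLinearMap.mul ℝ ℝ, volume] g := by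
  funext x
  rw [convolution_mul_swap]
  rfl

theorem cv_int {f g : ℝ → ℝ} (hf : Integrable f) (hg : Integrable g) : Integrable (cv f g) := by
  rw [cv_eq]
  exact hf.integrable_convolution _ hg

theorem cv_even {f g : ℝ → ℝ} (hf : ∀ t, f (-t) = f t) (hg : ∀ t, g (-t) = g t) (x : ℝ) :
    cv f g (-x) = cv f g x := by
  unfold cv
  rw [← integral_neg_eq_self]
  congr 1
  funext u
  rw [hg, show -x - -u = -(x - u) by ring, hf]

theorem cv_complex (f g : ℝ → ℝ) : (fun t : ℝ => ((cv f g t : ℝ) : ℂ)) =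
    (fun t : ℝ => ((f t : ℝ) : ℂ)) ⋆[ContinuousLinearMap.mul ℂ ℂ, volume]
      (fun t : ℝ => ((g t : ℝ) : ℂ)) := by
  funext x
  rw [convolution_mul_swap]
  unfold cv
  rw [← integral_complex_ofReal]
  congr 1
  funext u
  push_cast
  rfl

theorem CT.conv {f g m n : ℝ → ℝ} (hf : CT f m) (hg : CT g n) :
    CT (cv f g) fun k => m k * n k where
  int := cv_int hf.int hg.int
  even := cv_even hf.even hg.even
  ft k hk := by
    have hpi := Real.pi_pos
    have hξ : k / (2 * π) ≠ 0 := by positivity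
    have e2 : 2 * π * (k / (2 * π)) = k := by field_simp
    have h1 : 𝓕 ((fun t : ℝ => ((f t : ℝ) : ℂ)) ⋆[ContinuousLinearMap.mul ℂ ℂ, volume]
        (fun t : ℝ => ((g t : ℝ) : ℂ))) (k / (2 * π)) =
        𝓕 (fun t : ℝ => ((f t : ℝ) : ℂ)) (k / (2 * π)) *
          𝓕 (fun t : ℝ => ((g t : ℝ) : ℂ)) (k / (2 * π)) :=
      Real.fourier_mul_convolution_eq hf.int.ofReal hg.int.ofReal _
    have h2 := fourier_even (cv_int hf.int hg.int) (cv_even hf.even hg.even) (k / (2 * π))
    rw [cv_complex] at h2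
    have h3 := hf.fourier hξ
    have h4 := hg.fourier hξ
    rw [abs_of_pos (by positivity), e2] at h3 h4
    rw [e2] at h2
    rw [h2, h3, h4, ← Complex.ofReal_mul] at h1
    exact Complex.ofReal_injective h1

theorem cv_cont {f g : ℝ → ℝ} (hf : Integrable f) (hg : Continuous g) {C : ℝ}
    (hb : ∀ t, |g t| ≤ C) : Continuous (cv f g) := by
  rw [cv_eq]
  refine BddAbove.continuous_convolution_right_of_integrable (L := ContinuousLinearMap.mul ℝ ℝ) ?_ hf hg
  refine ⟨C, ?_⟩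
  rintro _ ⟨t, rfl⟩
  exact hb t

theorem cv_bound {f g : ℝ → ℝ} (hf : Integrable f) {C : ℝ}
    (hb : ∀ t, |g t| ≤ C) (x : ℝ) : |cv f g x| ≤ (∫ t, |f t|) * C := by
  unfold cv
  have h1 : ∫ u, |f (x - u)| = ∫ t, |f t| := integral_sub_left_eq_self (fun t => |f t|) volume x
  rw [← h1, ← integral_mul_const, ← Real.norm_eq_abs]
  refine norm_integral_le_of_norm_le (((hf.comp_sub_left x).abs).mul_const C) (ae_of_all _ fun u => ?_)
  rw [norm_mul, Real.norm_eq_abs, Real.norm_eq_abs]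
  exact mul_le_mul_of_nonneg_left (hb u) (abs_nonneg _)

/-- `V` has the cosine transform `Uh` -/
theorem CT_V : CT V Uh where
  int := V_integral.1
  even t := by
    unfold V w g
    rw [Real.sinh_neg, mul_neg, Real.cosh_neg, Real.cosh_neg, neg_sq]
  ft k hk := by
    have := (V_forward hk).2
    rw [← Uh] at this
    rw [← this]

/-- **Energy of two even densities with the kernel `V`.** -/
theorem energy_V {f₁ f₂ m₁ m₂ : ℝ → ℝ} (h₁ : CT f₁ m₁) (h₂ : CT f₂ m₂) (c₂ : Continuous f₂)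
    {C : ℝ} (b₂ : ∀ t, |f₂ t| ≤ C) (hi : IntegrableOn (fun k => m₁ k * (Uh k * m₂ k)) (Ioi 0))
    (x y : ℝ) : ∫ s, f₁ (x - s) * ∫ s', V (s - s') * f₂ (s' - y) =
      1 / π * ∫ k in Ioi (0:ℝ), m₁ k * (Uh k * m₂ k) * Real.cos (k * (x - y)) := by
  have hW := cv_cont CT_V.int c₂ b₂
  have hc := cv_cont h₁.int hW (cv_bound CT_V.int b₂)
  have h3 := (h₁.conv (CT_V.conv h₂)).inv hi (t := x - y) hc.continuousAt
  rw [← h3]
  have h4 : ∀ s, ∫ s', V (s - s') * f₂ (s' - y) = cv V f₂ (s - y) := by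
    intro s
    unfold cv
    rw [← integral_sub_right_eq_self (fun u => V (s - y - u) * f₂ u) y]
    congr 1
    funext u
    rw [show s - y - (u - y) = s - u by ring]
  simp_rw [h4]
  unfold cv
  rw [← integral_sub_right_eq_self (fun u => f₁ (x - y - u) * ∫ v, V (u - v) * f₂ v) y]
  congr 1
  funext u
  rw [show x - y - (u - y) = x - u by ring]

/-! ### the long range kernel -/

theorem cos_two {τ₁ τ₂ m₁ m₂ : ℝ → ℝ} (h₁ : CT τ₁ m₁) (h₂ : CT τ₂ m₂) (D : ℝ) {k : ℝ}
    (hk : 0 < k) : ∫ z : ℝ × ℝ, τ₁ z.1 * τ₂ z.2 * Real.cos (k * (D - z.1 - z.2)) =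
      m₁ k * m₂ k * Real.cos (k * D) := by
  have e : ∀ z : ℝ × ℝ, τ₁ z.1 * τ₂ z.2 * Real.cos (k * (D - z.1 - z.2)) =
      Real.cos (k * D) * ((τ₁ z.1 * Real.cos (k * z.1)) * (τ₂ z.2 * Real.cos (k * z.2))) -
      Real.cos (k * D) * ((τ₁ z.1 * Real.sin (k * z.1)) * (τ₂ z.2 * Real.sin (k * z.2))) +
      (Real.sin (k * D) * ((τ₁ z.1 * Real.sin (k * z.1)) * (τ₂ z.2 * Real.cos (k * z.2))) +
      Real.sin (k * D) * ((τ₁ z.1 * Real.cos (k * z.1)) * (τ₂ z.2 * Real.sin (k * z.2)))) := by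
    intro z
    rw [show k * (D - z.1 - z.2) = k * D - (k * z.1 + k * z.2) by ring, Real.cos_sub,
      Real.cos_add, Real.sin_add]
    ring
  simp_rw [e]
  have c1 := cos_int h₁.int k
  have c2 := cos_int h₂.int k
  have s1 := sin_int h₁.int k
  have s2 := sin_int h₂.int k
  have i1 := (c1.mul_prod c2).const_mul (Real.cos (k * D))
  have i2 := (s1.mul_prod s2).const_mul (Real.cos (k * D))
  have i3 := (s1.mul_prod c2).const_mul (Real.sin (k * D))
  have i4 := (c1.mul_prod s2).const_mul (Real.sin (k * D))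
  have a1 := integral_add (i1.sub i2) (i3.add i4)
  have a2 := integral_sub i1 i2
  have a3 := integral_add i3 i4
  simp only [Pi.add_apply, Pi.sub_apply] at a1 a2 a3
  rw [← Measure.volume_eq_prod] at a1 a2 a3
  have p1 := integral_prod_mul (μ := volume) (ν := volume) (fun t => τ₁ t * Real.cos (k * t))
    fun t => τ₂ t * Real.cos (k * t)
  have p2 := integral_prod_mul (μ := volume) (ν := volume) (fun t => τ₁ t * Real.sin (k * t))
    fun t => τ₂ t * Real.sin (k * t)
  have p3 := integral_prod_mul (μ := volume) (ν := volume) (fun t => τ₁ t * Real.sin (k * t))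
    fun t => τ₂ t * Real.cos (k * t)
  have p4 := integral_prod_mul (μ := volume) (ν := volume) (fun t => τ₁ t * Real.cos (k * t))
    fun t => τ₂ t * Real.sin (k * t)
  rw [← Measure.volume_eq_prod] at p1 p2 p3 p4
  rw [a1, a2, a3, integral_const_mul, integral_const_mul, integral_const_mul, integral_const_mul,
    p1, p2, p3, p4, h₁.ft k hk, h₂.ft k hk, sin_zero h₁.even, sin_zero h₂.even]
  ring

/-- **Energy of two even densities with the long range kernel `lgm`.** -/
theorem energy_lg {τ₁ τ₂ m₁ m₂ : ℝ → ℝ} (h₁ : CT τ₁ m₁) (h₂ : CT τ₂ m₂)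
    (i₁ : Integrable fun t => (1 + |t|) * τ₁ t) (i₂ : Integrable fun t => (1 + |t|) * τ₂ t)
    (x y : ℝ) :
    IntegrableOn (fun k => ((∫ t, τ₁ t) * (∫ t, τ₂ t) -
      m₁ k * m₂ k * Real.cos (k * (x - y))) * Lh k) (Ioi 0) ∧
    ∫ s, τ₁ (x - s) * ∫ s', NUE.lgm (s - s') * τ₂ (s' - y) =
      1 / π * ∫ k in Ioi (0:ℝ), ((∫ t, τ₁ t) * (∫ t, τ₂ t) -
        m₁ k * m₂ k * Real.cos (k * (x - y))) * Lh k := by
  have hpi := Real.pi_pos
  set D := x - y with hD
  set Φ : ℝ × ℝ → ℝ → ℝ := fun z k =>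
    τ₁ z.1 * τ₂ z.2 * ((1 - Real.cos (k * (D - z.1 - z.2))) * Lh k) with hΦ
  have hLc : Measurable Lh := by
    unfold Lh ck1 sk
    fun_prop
  have hLn : ∀ k, 0 < k → 0 ≤ Lh k := fun k hk => (Lh_pos hk.ne').le
  have hlg : ∀ t, NUE.lgm t = 1 / π * ∫ k in Ioi (0:ℝ), (1 - Real.cos (k * t)) * Lh k := NUE.lgm_eq
  have hlg0 : ∀ t, 0 ≤ NUE.lgm t := fun t => by
    rw [hlg]
    refine mul_nonneg (by positivity) (setIntegral_nonneg measurableSet_Ioi fun k hk => ?_)
    exact mul_nonneg (by linarith [Real.cos_le_one (k * t)]) (hLn k hk)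
  -- joint integrability
  have hm : AEStronglyMeasurable (Function.uncurry Φ) (volume.prod (volume.restrict (Ioi (0:ℝ)))) := by
    have h1 : AEStronglyMeasurable (fun z : ℝ × ℝ => τ₁ z.1 * τ₂ z.2) volume :=
      (h₁.int.mul_prod h₂.int).aestronglyMeasurable
    have h2 : Measurable fun q : (ℝ × ℝ) × ℝ => (1 - Real.cos (q.2 * (D - q.1.1 - q.1.2))) * Lh q.2 := by
      fun_prop
    exact (h1.comp_fst).mul h2.aestronglyMeasurable
  have hnorm : ∀ z : ℝ × ℝ, ∫ k in Ioi (0:ℝ), ‖Φ z k‖ =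
      |τ₁ z.1 * τ₂ z.2| * (π * NUE.lgm (D - z.1 - z.2)) := by
    intro z
    rw [hlg, ← mul_assoc π, mul_one_div_cancel hpi.ne', one_mul, ← integral_const_mul]
    refine setIntegral_congr_fun measurableSet_Ioi fun k hk => ?_
    simp only [hΦ]
    rw [norm_mul, Real.norm_eq_abs, Real.norm_eq_abs,
      abs_of_nonneg (mul_nonneg (by linarith [Real.cos_le_one (k * (D - z.1 - z.2))]) (hLn k hk))]
  have hmaj : Integrable (fun z : ℝ × ℝ => ((1 + |z.1|) * τ₁ z.1) * ((1 + |z.2|) * τ₂ z.2)) :=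
    i₁.mul_prod i₂
  have hz : Integrable fun z : ℝ × ℝ => |τ₁ z.1 * τ₂ z.2| * (π * NUE.lgm (D - z.1 - z.2)) := by
    refine Integrable.mono' ((hmaj.norm).const_mul (π * (2 * (1 + |D|)))) ?_ (ae_of_all _ fun z => ?_)
    · have h1 : AEStronglyMeasurable (fun z : ℝ × ℝ => |τ₁ z.1 * τ₂ z.2|) volume :=
        (h₁.int.mul_prod h₂.int).norm.aestronglyMeasurable
      have h2 : Continuous fun z : ℝ × ℝ => π * NUE.lgm (D - z.1 - z.2) := by
        have := NUE.lgm_cont
        fun_prop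
      exact h1.mul h2.aestronglyMeasurable
    · have h1 := NUE.lgm_le (D - z.1 - z.2)
      have h2 : |D - z.1 - z.2| ≤ |D| + |z.1| + |z.2| := by
        have := abs_sub (D - z.1) z.2
        have := abs_sub D z.1
        linarith
      have a := abs_nonneg D
      have b := abs_nonneg z.1
      have c := abs_nonneg z.2
      have h3 : NUE.lgm (D - z.1 - z.2) ≤ 2 * (1 + |D|) * ((1 + |z.1|) * (1 + |z.2|)) := by
        refine h1.trans ?_
        nlinarith [mul_nonneg a b, mul_nonneg a c, mul_nonneg b c, mul_nonneg a (mul_nonneg b c)]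
      have h4 := hlg0 (D - z.1 - z.2)
      have hn : ‖(1 + |z.1|) * τ₁ z.1 * ((1 + |z.2|) * τ₂ z.2)‖ =
          (1 + |z.1|) * |τ₁ z.1| * ((1 + |z.2|) * |τ₂ z.2|) := by
        rw [norm_mul, norm_mul, norm_mul, Real.norm_eq_abs, Real.norm_eq_abs, Real.norm_eq_abs,
          Real.norm_eq_abs, abs_of_nonneg (by positivity : 0 ≤ 1 + |z.1|),
          abs_of_nonneg (by positivity : 0 ≤ 1 + |z.2|)]
      rw [hn, Real.norm_eq_abs, abs_of_nonneg (mul_nonneg (abs_nonneg _) (mul_nonneg hpi.le h4)),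
        abs_mul]
      calc |τ₁ z.1| * |τ₂ z.2| * (π * NUE.lgm (D - z.1 - z.2)) ≤
          |τ₁ z.1| * |τ₂ z.2| * (π * (2 * (1 + |D|) * ((1 + |z.1|) * (1 + |z.2|)))) := by gcongr
        _ = _ := by ring
  have hint : Integrable (Function.uncurry Φ) (volume.prod (volume.restrict (Ioi (0:ℝ)))) := by
    rw [integrable_prod_iff hm]
    refine ⟨ae_of_all _ fun z => ?_, ?_⟩
    · exact (NUE.lgm_int (D - z.1 - z.2)).const_mul (τ₁ z.1 * τ₂ z.2)
    · simp only [Function.uncurry]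
      simp_rw [hnorm]
      exact hz
  have hswap := integral_integral_swap hint
  have hinner : ∀ k, 0 < k → ∫ z, Φ z k = ((∫ t, τ₁ t) * (∫ t, τ₂ t) -
      m₁ k * m₂ k * Real.cos (k * D)) * Lh k := by
    intro k hk
    rw [← cos_two h₁ h₂ D hk]
    have i5 : Integrable fun z : ℝ × ℝ => τ₁ z.1 * τ₂ z.2 := h₁.int.mul_prod h₂.int
    have i6 : Integrable fun z : ℝ × ℝ => τ₁ z.1 * τ₂ z.2 * Real.cos (k * (D - z.1 - z.2)) :=
      i5.mul_bdd (c := 1) (by fun_prop) (ae_of_all _ fun s => Real.abs_cos_le_one _)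
    have p1 := integral_prod_mul (μ := volume) (ν := volume) τ₁ τ₂
    rw [← Measure.volume_eq_prod] at p1
    rw [← p1, ← integral_sub i5 i6, ← integral_mul_const]
    congr 1
    funext z
    simp only [hΦ]
    ring
  have hright : ∫ k in Ioi (0:ℝ), ∫ z, Φ z k = ∫ k in Ioi (0:ℝ), ((∫ t, τ₁ t) * (∫ t, τ₂ t) -
      m₁ k * m₂ k * Real.cos (k * D)) * Lh k :=
    setIntegral_congr_fun measurableSet_Ioi fun k hk => hinner k hk
  refine ⟨?_, ?_⟩
  · have := hint.integral_prod_right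
    refine IntegrableOn.congr_fun this (fun k hk => ?_) measurableSet_Ioi
    exact hinner k hk
  · rw [← hright, ← hswap]
    -- left side
    have h5 : ∀ z : ℝ × ℝ, ∫ k in Ioi (0:ℝ), Φ z k =
        π * (τ₁ z.1 * (NUE.lgm (D - z.1 - z.2) * τ₂ z.2)) := by
      intro z
      simp only [hΦ]
      rw [integral_const_mul, hlg]
      generalize (∫ k in Ioi (0:ℝ), (1 - Real.cos (k * (D - z.1 - z.2))) * Lh k) = J
      field_simp
    simp_rw [h5]
    rw [integral_const_mul, ← mul_assoc, one_div_mul_cancel hpi.ne', one_mul]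
    have h6 : Integrable fun z : ℝ × ℝ => τ₁ z.1 * (NUE.lgm (D - z.1 - z.2) * τ₂ z.2) := by
      refine (hz.const_mul π⁻¹).mono' ?_ (ae_of_all _ fun z => ?_)
      · have h1 := h₁.int.aestronglyMeasurable.comp_fst (ν := (volume : Measure ℝ))
        have h3 := h₂.int.aestronglyMeasurable.comp_snd (μ := (volume : Measure ℝ))
        have h2 : Continuous fun z : ℝ × ℝ => NUE.lgm (D - z.1 - z.2) := by
          have := NUE.lgm_cont
          fun_prop
        exact h1.mul (h2.aestronglyMeasurable.mul h3)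
      · rw [norm_mul, norm_mul, Real.norm_eq_abs, Real.norm_eq_abs, Real.norm_eq_abs, abs_mul,
          abs_of_nonneg (hlg0 _)]
        apply le_of_eq
        field_simp
    rw [Measure.volume_eq_prod] at h6 ⊢
    rw [integral_prod _ h6, ← integral_sub_left_eq_self _ volume x]
    congr 1
    funext u
    simp only
    rw [← integral_const_mul,
      ← integral_sub_right_eq_self (fun v => τ₁ u * (NUE.lgm (D - u - v) * τ₂ v)) y]
    congr 1
    funext v
    rw [show D - u - (v - y) = x - u - v by rw [hD]; ring, sub_sub_cancel]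

end

end NUC37
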